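import Mathlib

namespace Pool.Agent.Lib.MP_74778d_co

variable {V : Type} [Fintype V] [DecidableEq V]

/-- The adjacency matrix as an operator on Euclidean space. -/
noncomputable def adjOp (G : SimpleGraph V) [DecidableRel G.Adj] :
    Module.End ℝ (EuclideanSpace ℝ V) :=
  Matrix.toEuclideanLin (G.adjMatrix ℝ)

/-- The eigenspace of the adjacency matrix for `θ`. -/
noncomputable def eigSpace (G : SimpleGraph V) [DecidableRel G.Adj] (θ : ℝ) :
    Submodule ℝ (EuclideanSpace ℝ V) :=
  Module.End.eigenspace (adjOp G) θ

/-- The diagonal entry at `v` of the orthogonal projection onto the subspace `K`. -/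
noncomputable def projDiag (K : Submodule ℝ (EuclideanSpace ℝ V)) (v : V) : ℝ :=
  K.starProjection (EuclideanSpace.single v (1 : ℝ)) v

/-- `a` and `b` are cospectral: every spectral projection has equal diagonal entries at them. -/
def Cospectral (G : SimpleGraph V) [DecidableRel G.Adj] (a b : V) : Prop :=
  ∀ θ : ℝ, Module.End.HasEigenvalue (adjOp G) θ →
    projDiag (eigSpace G θ) a = projDiag (eigSpace G θ) b

/-- The transition matrix `U(t) = exp (i t A)`. -/
noncomputable def transition (G : SimpleGraph V) [DecidableRel G.Adj] (t : ℝ) : Matrix V V ℂ :=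
  NormedSpace.exp ((Complex.I * t) • G.adjMatrix ℂ)

end Pool.Agent.Lib.MP_74778d_co
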