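import Mathlib

/-!
A graph on 1730 vertices with balanced fractional revival between two vertices of degrees
432 and 144.  It is a cyclic lift of a quotient matrix with twelve cells of size 144.
-/

namespace Pool.Agent.Lib.MP_74778d_co

open Finset Matrix

/-- a symmetric subset of `ZMod 144` avoiding zero, of size `d` -/
def S (d : ℕ) : Finset (ZMod 144) :=
  univ.filter (fun z => (1 ≤ z.val ∧ 2 * z.val ≤ d) ∨ 2 * (144 - z.val) ≤ d ∨
    (d % 2 = 1 ∧ z.val = 72))

/-- the degrees between the twelve cells -/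
def D : Fin 12 → Fin 12 → ℕ :=
  ![![59, 5, 5, 11, 2, 2, 8, 0, 0, 4, 0, 0],
    ![5, 59, 0, 2, 11, 0, 0, 8, 0, 0, 4, 0],
    ![5, 0, 59, 2, 0, 11, 0, 0, 8, 0, 0, 4],
    ![11, 2, 2, 13, 33, 33, 0, 0, 0, 0, 0, 0],
    ![2, 11, 0, 33, 13, 0, 0, 0, 0, 0, 0, 0],
    ![2, 0, 11, 33, 0, 13, 0, 0, 0, 0, 0, 0],
    ![8, 0, 0, 0, 0, 0, 13, 33, 33, 0, 0, 0],
    ![0, 8, 0, 0, 0, 0, 33, 13, 0, 0, 0, 0],
    ![0, 0, 8, 0, 0, 0, 33, 0, 13, 0, 0, 0],
    ![4, 0, 0, 0, 0, 0, 0, 0, 0, 13, 33, 33],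
    ![0, 4, 0, 0, 0, 0, 0, 0, 0, 33, 13, 0],
    ![0, 0, 4, 0, 0, 0, 0, 0, 0, 33, 0, 13]]

theorem D_symm : ∀ c c', D c c' = D c' c := by decide

theorem D_mem : ∀ c c', D c c' ∈ ([0, 2, 4, 5, 8, 11, 13, 33, 59] : List ℕ) := by decide

theorem S_card : ∀ d ∈ ([0, 2, 4, 5, 8, 11, 13, 33, 59] : List ℕ), (S d).card = d := by
  decide +kernel

theorem S_neg : ∀ d ∈ ([0, 2, 4, 5, 8, 11, 13, 33, 59] : List ℕ), ∀ z ∈ S d, -z ∈ S d := by
  decide +kernel

theorem S_zero : ∀ d ∈ ([0, 2, 4, 5, 8, 11, 13, 33, 59] : List ℕ), (0 : ZMod 144) ∉ S d := by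
  decide +kernel

/-- the vertex set: `inl true` is `a`, `inl false` is `b` -/
abbrev V : Type := Bool ⊕ (Fin 12 × ZMod 144)

/-- the cells joined to `a` (for `true`) and to `b` (for `false`) -/
def att (x : Bool) (c : Fin 12) : Prop := c.val < (if x then 3 else 1)

instance (x : Bool) (c : Fin 12) : Decidable (att x c) := by unfold att; infer_instance

/-- adjacency -/
def adj : V → V → Prop
  | Sum.inl _, Sum.inl _ => False
  | Sum.inl x, Sum.inr p => att x p.1
  | Sum.inr p, Sum.inl x => att x p.1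
  | Sum.inr p, Sum.inr q => q.2 - p.2 ∈ S (D p.1 q.1)

instance : DecidableRel adj := fun v w =>
  match v, w with
  | Sum.inl _, Sum.inl _ => isFalse (fun h => h)
  | Sum.inl x, Sum.inr p => inferInstanceAs (Decidable (att x p.1))
  | Sum.inr p, Sum.inl x => inferInstanceAs (Decidable (att x p.1))
  | Sum.inr p, Sum.inr q => inferInstanceAs (Decidable (q.2 - p.2 ∈ S (D p.1 q.1)))

theorem adj_symm (v w : V) (h : adj v w) : adj w v := by
  rcases v with x | p <;> rcases w with y | q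
  · exact h
  · exact h
  · exact h
  · have := S_neg _ (D_mem p.1 q.1) _ h
    rw [neg_sub, D_symm] at this
    exact this

theorem adj_irrefl (v : V) : ¬ adj v v := by
  rcases v with x | p
  · exact fun h => h
  · intro h
    have : p.2 - p.2 ∈ S (D p.1 p.1) := h
    rw [sub_self] at this
    exact S_zero _ (D_mem _ _) this

/-- the graph -/
def G : SimpleGraph V where
  Adj := adj
  symm := ⟨adj_symm⟩
  loopless := ⟨adj_irrefl⟩

instance : DecidableRel G.Adj := inferInstanceAs (DecidableRel adj)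

section Alg

variable {R : Type} [CommRing R]

/-- a function that is constant on cells -/
def lift (f : Bool → R) (g : Fin 12 → R) : V → R
  | Sum.inl x => f x
  | Sum.inr p => g p.1

theorem sum_S (d : ℕ) (hd : d ∈ ([0, 2, 4, 5, 8, 11, 13, 33, 59] : List ℕ)) (u : ZMod 144)
    (x : R) : ∑ v : ZMod 144, (if v - u ∈ S d then x else 0) = d * x := by
  rw [← Equiv.sum_comp (Equiv.addRight u)]
  simp only [Equiv.coe_addRight, add_sub_cancel_right]
  rw [← sum_filter, sum_const, filter_mem_eq_inter, univ_inter, S_card d hd, nsmul_eq_mul]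

theorem mulVec_lift (f : Bool → R) (g : Fin 12 → R) :
    (G.adjMatrix R) *ᵥ (lift f g) =
      lift (fun x => ∑ c : Fin 12, if att x c then 144 * g c else 0)
        (fun c => (∑ x : Bool, if att x c then f x else 0) + ∑ c' : Fin 12, D c c' * g c') := by
  funext v
  simp only [mulVec, dotProduct, SimpleGraph.adjMatrix_apply, ite_mul, one_mul, zero_mul]
  rw [Fintype.sum_sum_type, Fintype.sum_prod_type]
  rcases v with x | p
  · have h1 : ∀ y : Bool, ¬ G.Adj (Sum.inl x) (Sum.inl y) := fun y h => h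
    have h2 : ∀ (c : Fin 12) (u : ZMod 144), G.Adj (Sum.inl x) (Sum.inr (c, u)) ↔ att x c :=
      fun c u => Iff.rfl
    simp only [h1, h2, if_false, sum_const_zero, zero_add, lift]
    refine sum_congr rfl fun c _ => ?_
    rw [sum_const, card_univ, ZMod.card]
    split_ifs <;> simp
  · have h1 : ∀ y : Bool, G.Adj (Sum.inr p) (Sum.inl y) ↔ att y p.1 := fun y => Iff.rfl
    have h2 : ∀ (c : Fin 12) (u : ZMod 144),
        G.Adj (Sum.inr p) (Sum.inr (c, u)) ↔ u - p.2 ∈ S (D p.1 c) := fun c u => Iff.rfl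
    simp only [h1, h2, lift]
    congr 1
    exact sum_congr rfl fun c _ => sum_S _ (D_mem _ _) _ _

/-- the lift of a vector `(c₀, c₁, c₂)` for the square root `s` of two -/
def L (s c₀ c₁ c₂ : R) : V → R :=
  lift (fun x => if x then c₀ else (s - 1) * c₀)
    ![s * c₁, c₁, c₁, s * ((11 + 2 * s) * c₂), (11 + 2 * s) * c₂, (11 + 2 * s) * c₂,
      s * (8 * c₂), 8 * c₂, 8 * c₂, s * (4 * c₂), 4 * c₂, 4 * c₂]

theorem mulVec_L (s c₀ c₁ c₂ : R) (hs : s ^ 2 = 2) :
    (G.adjMatrix R) *ᵥ (L s c₀ c₁ c₂) =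
      L s (144 * (2 + s) * c₁) (c₀ + (59 + 5 * s) * c₁ + (209 + 44 * s) * c₂)
        (c₁ + (13 + 33 * s) * c₂) := by
  unfold L
  rw [mulVec_lift]
  congr 1
  · funext x
    cases x
    · simp [att]
      linear_combination (-144 * c₁) * hs
    · simp [att, Fin.sum_univ_succ]
      ring
  · funext c
    fin_cases c <;> simp [att, D, Fin.sum_univ_succ]
    all_goals grind

end Alg

end Pool.Agent.Lib.MP_74778d_co
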