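import Pool.Agent.Lib.MP_74778d_co.Graph

namespace Pool.Agent.Lib.MP_74778d_co

open Finset Matrix

section Alg

variable {R : Type} [CommRing R]

theorem L_add (s a₀ a₁ a₂ b₀ b₁ b₂ : R) :
    L s a₀ a₁ a₂ + L s b₀ b₁ b₂ = L s (a₀ + b₀) (a₁ + b₁) (a₂ + b₂) := by
  funext v
  rcases v with x | ⟨c, u⟩
  · cases x <;> simp [L, lift]
    ring
  · fin_cases c <;> simp [L, lift] <;> ring

theorem L_smul (s t a₀ a₁ a₂ : R) :
    t • L s a₀ a₁ a₂ = L s (t * a₀) (t * a₁) (t * a₂) := by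
  funext v
  rcases v with x | ⟨c, u⟩
  · cases x <;> simp [L, lift]
    ring
  · fin_cases c <;> simp [L, lift] <;> ring

theorem L_base (s t : R) :
    L s t 0 0 = t • (Pi.single (Sum.inl true) 1 : V → R) +
      ((s - 1) * t) • (Pi.single (Sum.inl false) 1 : V → R) := by
  funext v
  rcases v with x | ⟨c, u⟩
  · cases x <;> simp [L, lift]
  · fin_cases c <;> simp [L, lift]

/-- the three eigenvectors -/
def w₁ (s : R) : V → R := L s (2376 + 1584 * s) (11 - 55 * s) 1
def w₂ (s : R) : V → R := L s (-984 + 624 * s) (11 - 15 * s) 1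
def w₃ (s : R) : V → R := L s (72 + 48 * s) (11 + 9 * s) 1

theorem w₁_eig (s : R) (hs : s ^ 2 = 2) :
    (G.adjMatrix R) *ᵥ w₁ s = (24 - 22 * s) • w₁ s := by
  unfold w₁
  rw [mulVec_L _ _ _ _ hs, L_smul]
  congr 1 <;> grind

theorem w₂_eig (s : R) (hs : s ^ 2 = 2) :
    (G.adjMatrix R) *ᵥ w₂ s = (24 + 18 * s) • w₂ s := by
  unfold w₂
  rw [mulVec_L _ _ _ _ hs, L_smul]
  congr 1 <;> grind

theorem w₃_eig (s : R) (hs : s ^ 2 = 2) :
    (G.adjMatrix R) *ᵥ w₃ s = (24 + 42 * s) • w₃ s := by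
  unfold w₃
  rw [mulVec_L _ _ _ _ hs, L_smul]
  congr 1 <;> grind

theorem w_sum (s : R) :
    (3 : R) • w₁ s + (-8 : R) • w₂ s + (5 : R) • w₃ s =
      (15360 : R) • (Pi.single (Sum.inl true) 1 : V → R) +
        ((s - 1) * 15360) • (Pi.single (Sum.inl false) 1 : V → R) := by
  unfold w₁ w₂ w₃
  rw [L_smul, L_smul, L_smul, L_add, L_add, ← L_base]
  congr 1 <;> ring

end Alg

/-! ### The matrix exponential on an eigenvector -/

theorem exp_mulVec {n : Type} [Fintype n] [DecidableEq n] (M : Matrix n n ℂ) (v : n → ℂ) (c : ℂ)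
    (h : M *ᵥ v = c • v) : (NormedSpace.exp M) *ᵥ v = Complex.exp c • v := by
  have hpow : ∀ k : ℕ, (M ^ k) *ᵥ v = c ^ k • v := by
    intro k
    induction k with
    | zero => simp
    | succ k ih => rw [pow_succ, ← mulVec_mulVec, h, mulVec_smul, ih, smul_smul, pow_succ, mul_comm]
  let _ : NormedRing (Matrix n n ℂ) := Matrix.linftyOpNormedRing
  let _ : NormedAlgebra ℂ (Matrix n n ℂ) := Matrix.linftyOpNormedAlgebra
  have h1 : HasSum (fun k : ℕ => ((k.factorial : ℂ)⁻¹) • M ^ k) (NormedSpace.exp M) :=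
    NormedSpace.exp_series_hasSum_exp' (𝕂 := ℂ) M
  let φ : Matrix n n ℂ →ₗ[ℂ] (n → ℂ) :=
    { toFun := fun N => N *ᵥ v
      map_add' := fun A B => add_mulVec A B v
      map_smul' := fun t A => smul_mulVec t A v }
  have h2 := h1.map φ.toAddMonoidHom (LinearMap.continuous_of_finiteDimensional φ)
  have h3 : HasSum (fun k : ℕ => ((k.factorial : ℂ)⁻¹) • c ^ k) (NormedSpace.exp c) :=
    NormedSpace.exp_series_hasSum_exp' (𝕂 := ℂ) c
  have h4 := h3.smul_const v
  rw [← Complex.exp_eq_exp_ℂ] at h4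
  refine HasSum.unique h2 ?_
  convert h4 using 1
  funext k
  simp [φ, smul_mulVec, hpow, smul_smul]

theorem exp_u (s t lam : ℂ) (hs : s ^ 2 = 2) (h1 : Complex.exp (t * (24 - 22 * s)) = lam)
    (h2 : Complex.exp (t * (24 + 18 * s)) = lam) (h3 : Complex.exp (t * (24 + 42 * s)) = lam) :
    (NormedSpace.exp (t • G.adjMatrix ℂ)) *ᵥ
        ((Pi.single (Sum.inl true) 1 : V → ℂ) + (s - 1) • (Pi.single (Sum.inl false) 1 : V → ℂ)) =
      lam • ((Pi.single (Sum.inl true) 1 : V → ℂ) +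
        (s - 1) • (Pi.single (Sum.inl false) 1 : V → ℂ)) := by
  have e1 := exp_mulVec (t • G.adjMatrix ℂ) (w₁ s) (t * (24 - 22 * s))
    (by rw [smul_mulVec, w₁_eig s hs, smul_smul])
  have e2 := exp_mulVec (t • G.adjMatrix ℂ) (w₂ s) (t * (24 + 18 * s))
    (by rw [smul_mulVec, w₂_eig s hs, smul_smul])
  have e3 := exp_mulVec (t • G.adjMatrix ℂ) (w₃ s) (t * (24 + 42 * s))
    (by rw [smul_mulVec, w₃_eig s hs, smul_smul])
  rw [h1] at e1
  rw [h2] at e2
  rw [h3] at e3
  have hu : ((Pi.single (Sum.inl true) 1 : V → ℂ) +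
      (s - 1) • (Pi.single (Sum.inl false) 1 : V → ℂ)) =
      (15360 : ℂ)⁻¹ • ((3 : ℂ) • w₁ s + (-8 : ℂ) • w₂ s + (5 : ℂ) • w₃ s) := by
    rw [w_sum, smul_add, smul_smul, smul_smul]
    congr 1
    · norm_num
    · congr 1
      ring
  rw [hu, mulVec_smul, mulVec_add, mulVec_add, mulVec_smul, mulVec_smul, mulVec_smul, e1, e2, e3]
  module

theorem revival : ∃ (τ : ℝ) (α β : ℂ), 0 < τ ∧ β ≠ 0 ∧ ‖α‖ = 1 / √2 ∧ ‖β‖ = 1 / √2 ∧
    (NormedSpace.exp ((Complex.I * τ) • G.adjMatrix ℂ)) *ᵥ (Pi.single (Sum.inl true) 1) =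
      α • (Pi.single (Sum.inl true) 1 : V → ℂ) + β • (Pi.single (Sum.inl false) 1 : V → ℂ) := by
  have h2 : (0 : ℝ) < √2 := by positivity
  set s : ℂ := ((√2 : ℝ) : ℂ) with hs_def
  have hs : s ^ 2 = 2 := by
    rw [hs_def]
    exact_mod_cast Real.sq_sqrt (by norm_num : (0 : ℝ) ≤ 2)
  have hs0 : s ≠ 0 := by
    rw [hs_def]
    exact_mod_cast h2.ne'
  set τ : ℝ := Real.pi / (4 * √2) with hτ
  have hτs : (τ : ℂ) * s = Real.pi / 4 := by
    rw [hτ, hs_def]
    push_cast
    field_simp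
  set lam : ℂ := Complex.exp (Complex.I * τ * 24) * Complex.I with hlam
  have key : ∀ k : ℤ, Complex.exp (Complex.I * τ * (24 + (2 + 8 * k) * s)) = lam := by
    intro k
    have : Complex.I * τ * (24 + (2 + 8 * k) * s) =
        Complex.I * τ * 24 + (Real.pi / 2 * Complex.I + k * (2 * Real.pi * Complex.I)) := by
      linear_combination (Complex.I * (2 + 8 * k)) * hτs
    rw [this, Complex.exp_add, Complex.exp_add, Complex.exp_int_mul_two_pi_mul_I,
      Complex.exp_pi_div_two_mul_I, mul_one]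
  have key' : ∀ k : ℤ, Complex.exp (Complex.I * τ * (24 + (2 + 8 * k) * (-s))) = -lam := by
    intro k
    have : Complex.I * τ * (24 + (2 + 8 * k) * (-s)) =
        Complex.I * τ * 24 + (Real.pi / 2 * Complex.I + Real.pi * Complex.I +
          ((-k - 1 : ℤ) : ℂ) * (2 * Real.pi * Complex.I)) := by
      push_cast
      linear_combination (-Complex.I * (2 + 8 * k)) * hτs
    rw [this, Complex.exp_add, Complex.exp_add, Complex.exp_add, Complex.exp_int_mul_two_pi_mul_I,
      Complex.exp_pi_div_two_mul_I, Complex.exp_pi_mul_I, hlam]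
    ring
  have u1 := exp_u s (Complex.I * τ) lam hs
    (by rw [← key (-3)]; congr 1; push_cast; ring) (by rw [← key 2]; congr 1; push_cast; ring)
    (by rw [← key 5]; congr 1; push_cast; ring)
  have u2 := exp_u (-s) (Complex.I * τ) (-lam) (by rw [neg_sq, hs])
    (by rw [← key' (-3)]; congr 1; push_cast; ring) (by rw [← key' 2]; congr 1; push_cast; ring)
    (by rw [← key' 5]; congr 1; push_cast; ring)
  have hnorm : ‖lam * (s / 2)‖ = 1 / √2 := by
    rw [norm_mul, hlam, norm_mul, Complex.norm_I, mul_one]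
    have : Complex.I * τ * 24 = ((τ * 24 : ℝ) : ℂ) * Complex.I := by push_cast; ring
    rw [this, Complex.norm_exp_ofReal_mul_I, one_mul, norm_div, hs_def, Complex.norm_real,
      Real.norm_of_nonneg h2.le]
    simp only [Complex.norm_ofNat]
    field_simp
    exact Real.sq_sqrt (by norm_num)
  refine ⟨τ, lam * (s / 2), lam * (s / 2), by positivity, ?_, hnorm, hnorm, ?_⟩
  · intro h0
    rw [h0, norm_zero] at hnorm
    have : (0 : ℝ) < 1 / √2 := by positivity
    linarith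
  · set ea : V → ℂ := Pi.single (Sum.inl true) 1
    set eb : V → ℂ := Pi.single (Sum.inl false) 1
    have hea : ea = ((2 + s) / 4) • (ea + (s - 1) • eb) + ((2 - s) / 4) • (ea + (-s - 1) • eb) := by
      have : ((2 + s) / 4 * (s - 1) + (2 - s) / 4 * (-s - 1)) = 0 := by
        linear_combination (1 / 2 : ℂ) * hs
      calc ea = ea + ((2 + s) / 4 * (s - 1) + (2 - s) / 4 * (-s - 1)) • eb := by rw [this]; simp
        _ = _ := by module
    have hfin : ((2 + s) / 4) • lam • (ea + (s - 1) • eb) +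
        ((2 - s) / 4) • (-lam) • (ea + (-s - 1) • eb) =
        (lam * (s / 2)) • ea + (lam * (s / 2)) • eb := by
      module
    conv_lhs => rw [hea]
    rw [mulVec_add, mulVec_smul, mulVec_smul, u1, u2, hfin]

/-! ### The two vertices are not cospectral -/

theorem not_cospectral : ¬ ∀ θ : ℝ,
    Module.End.HasEigenvalue (Matrix.toEuclideanLin (G.adjMatrix ℝ)) θ →
      (Module.End.eigenspace (Matrix.toEuclideanLin (G.adjMatrix ℝ)) θ).starProjection
          (EuclideanSpace.single (Sum.inl true) (1 : ℝ)) (Sum.inl true) =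
        (Module.End.eigenspace (Matrix.toEuclideanLin (G.adjMatrix ℝ)) θ).starProjection
          (EuclideanSpace.single (Sum.inl false) (1 : ℝ)) (Sum.inl false) := by
  intro h
  set T := Matrix.toEuclideanLin (G.adjMatrix ℝ) with hT
  have hsym : T.IsSymmetric := by
    rw [hT, Matrix.isSymmetric_toEuclideanLin_iff]
    exact G.isHermitian_adjMatrix ℝ
  set s : ℝ := √2 with hs_def
  have hs : s ^ 2 = 2 := Real.sq_sqrt (by norm_num)
  have hs' : (-s) ^ 2 = 2 := by rw [neg_sq, hs]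
  have hpos : 0 < s := by positivity
  have mem : ∀ (v : V → ℝ) (c : ℝ), (G.adjMatrix ℝ) *ᵥ v = c • v →
      (WithLp.toLp 2 v : EuclideanSpace ℝ V) ∈ Module.End.eigenspace T c := by
    intro v c hv
    rw [Module.End.mem_eigenspace_iff, hT, Matrix.toLpLin_apply]
    simp [hv]
  set K := Module.End.eigenspace T (24 + 42 * s) with hK
  have orth : ∀ (v : V → ℝ) (c : ℝ), (G.adjMatrix ℝ) *ᵥ v = c • v → c ≠ 24 + 42 * s →
      (WithLp.toLp 2 v : EuclideanSpace ℝ V) ∈ Kᗮ := by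
    intro v c hv hc
    rw [Submodule.mem_orthogonal]
    intro w hw
    exact hsym.orthogonalFamily_eigenspaces hc.symm ⟨w, hw⟩ ⟨_, mem v c hv⟩
  have m3 := mem _ _ (w₃_eig s hs)
  have o1 := orth _ _ (w₁_eig s hs) (by linarith)
  have o2 := orth _ _ (w₂_eig s hs) (by linarith)
  have o4 := orth _ _ (w₁_eig (-s) hs') (by linarith)
  have o5 := orth _ _ (w₂_eig (-s) hs') (by linarith)
  have o6 := orth _ _ (w₃_eig (-s) hs') (by linarith)
  have proj : ∀ x y : ℝ, K.starProjection (WithLp.toLp 2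
      (x • ((3 : ℝ) • w₁ s + (-8 : ℝ) • w₂ s + (5 : ℝ) • w₃ s) +
        y • ((3 : ℝ) • w₁ (-s) + (-8 : ℝ) • w₂ (-s) + (5 : ℝ) • w₃ (-s)))) =
      (5 * x) • (WithLp.toLp 2 (w₃ s) : EuclideanSpace ℝ V) := by
    intro x y
    refine Submodule.eq_starProjection_of_mem_orthogonal' (K.smul_mem _ m3)
      (z := (3 * x) • (WithLp.toLp 2 (w₁ s) : EuclideanSpace ℝ V) +
        (-8 * x) • WithLp.toLp 2 (w₂ s) + (3 * y) • WithLp.toLp 2 (w₁ (-s)) +
        (-8 * y) • WithLp.toLp 2 (w₂ (-s)) + (5 * y) • WithLp.toLp 2 (w₃ (-s))) ?_ ?_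
    · exact add_mem (add_mem (add_mem (add_mem (Submodule.smul_mem _ _ o1)
        (Submodule.smul_mem _ _ o2)) (Submodule.smul_mem _ _ o4)) (Submodule.smul_mem _ _ o5))
        (Submodule.smul_mem _ _ o6)
    · simp only [WithLp.toLp_add, WithLp.toLp_smul]
      module
  have ha : (EuclideanSpace.single (Sum.inl true) (1 : ℝ) : EuclideanSpace ℝ V) = WithLp.toLp 2
      (((2 + s) / 4 / 15360) • ((3 : ℝ) • w₁ s + (-8 : ℝ) • w₂ s + (5 : ℝ) • w₃ s) +
        ((2 - s) / 4 / 15360) •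
          ((3 : ℝ) • w₁ (-s) + (-8 : ℝ) • w₂ (-s) + (5 : ℝ) • w₃ (-s))) := by
    rw [w_sum, w_sum]
    ext v
    rcases v with x | p
    · cases x
      · simp
        linear_combination (-1 / 2 : ℝ) * hs
      · simp
        ring
    · simp
  have hb : (EuclideanSpace.single (Sum.inl false) (1 : ℝ) : EuclideanSpace ℝ V) = WithLp.toLp 2
      ((s / 4 / 15360) • ((3 : ℝ) • w₁ s + (-8 : ℝ) • w₂ s + (5 : ℝ) • w₃ s) +
        (-s / 4 / 15360) •
          ((3 : ℝ) • w₁ (-s) + (-8 : ℝ) • w₂ (-s) + (5 : ℝ) • w₃ (-s))) := by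
    rw [w_sum, w_sum]
    ext v
    rcases v with x | p
    · cases x
      · simp
        linear_combination (-1 / 2 : ℝ) * hs
      · simp
        ring
    · simp
  have hev : Module.End.HasEigenvalue T (24 + 42 * s) := by
    refine Module.End.hasEigenvalue_of_hasEigenvector (x := WithLp.toLp 2 (w₃ s)) ⟨m3, ?_⟩
    intro h0
    have : (WithLp.toLp 2 (w₃ s) : EuclideanSpace ℝ V) (Sum.inl true) = 0 := by rw [h0]; rfl
    simp [w₃, L, lift] at this
    linarith
  have hh := h _ hev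
  rw [← hK, ha, hb, proj, proj] at hh
  simp [w₃, L, lift] at hh
  nlinarith

end Pool.Agent.Lib.MP_74778d_co
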